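import Pool.Agent.R578.LD.Main

/-! # The lower threshold of a monotone property of locally dependent random graphs

For every monotone property and every `d = d(n)` there is a function `L(n, d)` which satisfies
part (i) and the `H₁`-half of part (iii) of Q1. -/

set_option autoImplicit false

namespace Pool.Agent.Results.MP_c7de0c_pr.LowerThreshold

open Filter Topology Pool.Agent.R578.LD

/-- the possible edges of a graph on `[n]` -/
abbrev Edge (n : ℕ) : Type := {e : Sym2 (Fin n) // ¬ e.IsDiag}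

/-- the graph on `[n]` with edge set `S` -/
def graphOf (n : ℕ) (S : Finset (Edge n)) : SimpleGraph (Fin n) :=
  SimpleGraph.fromEdgeSet {e | ∃ h : ¬ e.IsDiag, (⟨e, h⟩ : Edge n) ∈ S}

lemma graphOf_mono (n : ℕ) {S T : Finset (Edge n)} (h : S ⊆ T) : graphOf n S ≤ graphOf n T := by
  apply SimpleGraph.fromEdgeSet_mono
  rintro e ⟨h1, h2⟩
  exact ⟨h1, h h2⟩

lemma graphOf_empty (n : ℕ) : graphOf n ∅ = ⊥ := by
  unfold graphOf
  have : {e : Sym2 (Fin n) | ∃ h : ¬ e.IsDiag, (⟨e, h⟩ : Edge n) ∈ (∅ : Finset (Edge n))} = ∅ := by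
    ext e; simp
  rw [this, SimpleGraph.fromEdgeSet_empty]

lemma graphOf_univ (n : ℕ) : graphOf n Finset.univ = ⊤ := by
  ext a b
  unfold graphOf
  rw [SimpleGraph.fromEdgeSet_adj, SimpleGraph.top_adj]
  constructor
  · intro h; exact h.2
  · intro h
    exact ⟨⟨by simpa using h, Finset.mem_univ _⟩, h⟩

/-- For every nontrivial monotone graph property `P` and every function `d` there is a positive
function `L` such that, for all `p : ℕ → [0, 1]`,

* (i) if `p ≪ L`, then every sequence of `d`-dependent random graphs with edge probability `p`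
  almost surely does not have `P`;
* (iii, first half) if `L ≪ p`, then some sequence of `d`-dependent random graphs with edge
  probability `p` almost surely has `P`. -/
theorem result (P : ∀ n, Set (SimpleGraph (Fin n)))
    (hmono : ∀ n (G H : SimpleGraph (Fin n)), G ≤ H → G ∈ P n → H ∈ P n)
    (hnt : ∀ᶠ n in atTop, (∃ G, G ∈ P n) ∧ (∃ G, G ∉ P n)) (d : ℕ → ℕ) :
    ∃ L : ℕ → ℝ, (∀ n, 0 < L n) ∧
      (∀ p : ℕ → ℝ, (∀ n, 0 ≤ p n ∧ p n ≤ 1) → Tendsto (fun n => p n / L n) atTop (𝓝 0) →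
        ∀ R : ∀ n, RS (Edge n), (∀ n, Dep (d n) (p n) (R n)) →
          Tendsto (fun n => (R n).Pr {S | graphOf n S ∈ P n}) atTop (𝓝 0)) ∧
      (∀ p : ℕ → ℝ, (∀ n, 0 < p n ∧ p n ≤ 1) → Tendsto (fun n => L n / p n) atTop (𝓝 0) →
        ∃ R : ∀ n, RS (Edge n), (∀ n, Dep (d n) (p n) (R n)) ∧
          Tendsto (fun n => (R n).Pr {S | graphOf n S ∈ P n}) atTop (𝓝 1)) := by
  classical
  set U : ∀ n, Set (Finset (Edge n)) := fun n => {S | graphOf n S ∈ P n} with hUdef
  have hU : ∀ n, ∀ S T : Finset (Edge n), S ⊆ T → S ∈ U n → T ∈ U n := by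
    intro n S T h hS
    exact hmono n _ _ (graphOf_mono n h) hS
  have hev : ∀ᶠ n in atTop, (∅ : Finset (Edge n)) ∉ U n ∧ (Finset.univ : Finset (Edge n)) ∈ U n := by
    filter_upwards [hnt] with n hn
    obtain ⟨⟨G, hG⟩, ⟨H, hH⟩⟩ := hn
    constructor
    · intro h
      have h' : graphOf n ∅ ∈ P n := h
      rw [graphOf_empty] at h'
      exact hH (hmono n ⊥ H bot_le h')
    · change graphOf n Finset.univ ∈ P n
      rw [graphOf_univ]
      exact hmono n G ⊤ le_top hG
  refine ⟨fun n => if (∅ : Finset (Edge n)) ∉ U n ∧ (Finset.univ : Finset (Edge n)) ∈ U n then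
    Lth (d n) (U n) else 1, ?_, ?_, ?_⟩
  · intro n
    dsimp only
    split_ifs with h
    · exact Lth_pos _ _ h.1 h.2
    · exact one_pos
  · intro p hp hlim R hR
    rw [Metric.tendsto_nhds] at hlim ⊢
    intro ε hε
    obtain ⟨K, hK⟩ := exists_pow_lt_of_lt_one (show (0 : ℝ) < 1 / 2 by norm_num)
      (show 1 - ε < 1 by linarith)
    have hKpos : (0 : ℝ) < (K : ℝ) + 1 := by positivity
    filter_upwards [hev, hlim (1 / ((K : ℝ) + 1)) (by positivity)] with n hn hn2
    rw [if_pos hn] at hn2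
    obtain ⟨hp0, hp1⟩ := hp n
    have hLpos := Lth_pos (d n) (U n) hn.1 hn.2
    rw [Real.dist_eq, sub_zero, abs_of_nonneg (div_nonneg hp0 hLpos.le),
      div_lt_div_iff₀ hLpos hKpos] at hn2
    have hKp : (K : ℝ) * p n < Lth (d n) (U n) := by nlinarith
    have h3 := small (d n) (U n) hn.1 hn.2 (hU n) K (p n) hp0 hp1 hKp (R n) (hR n)
    obtain ⟨D, hD, hG⟩ := hR n
    have ha0 := Pr_nonneg hG (U n)
    have ha1 := Pr_le_one hG (U n)
    rw [Real.dist_eq, sub_zero, abs_of_nonneg ha0]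
    by_contra hc
    have hc' : ε ≤ (R n).Pr (U n) := not_lt.1 hc
    have : (1 - (R n).Pr (U n)) ^ K ≤ (1 - ε) ^ K := by
      apply pow_le_pow_left₀ <;> linarith
    linarith
  · intro p hp hlim
    have hch := fun n => choose_opt (ι := Edge n) (d n) (U n) (p n) (hp n).1.le (hp n).2
      (1 / ((n : ℝ) + 1)) (by positivity)
    choose R hR hopt using hch
    refine ⟨R, hR, ?_⟩
    have hlim1 := tendsto_one_div_add_atTop_nhds_zero_nat (𝕜 := ℝ)
    rw [Metric.tendsto_nhds] at hlim hlim1 ⊢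
    intro ε hε
    obtain ⟨K, hK⟩ := exists_pow_lt_of_lt_one (show (0 : ℝ) < ε / 2 by linarith)
      (show (1 / 2 : ℝ) < 1 by norm_num)
    have hKpos : (0 : ℝ) < ((K + 1 : ℕ) : ℝ) := by positivity
    filter_upwards [hev, hlim (1 / (((K + 1 : ℕ) : ℝ))) (by positivity),
      hlim1 (ε / 2) (by linarith)] with n hn hn2 hn3
    rw [if_pos hn] at hn2
    obtain ⟨hp0, hp1⟩ := hp n
    have hLpos := Lth_pos (d n) (U n) hn.1 hn.2
    rw [Real.dist_eq, sub_zero, abs_of_nonneg (div_nonneg hLpos.le hp0.le),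
      div_lt_div_iff₀ hp0 hKpos] at hn2
    rw [Real.dist_eq, sub_zero, abs_of_nonneg (by positivity)] at hn3
    have hLp : Lth (d n) (U n) < p n / ((K + 1 : ℕ) : ℝ) := by
      rw [lt_div_iff₀ hKpos]; linarith
    have hne : Nonempty (Edge n) := by
      by_contra hemp
      rw [not_nonempty_iff] at hemp
      have : (Finset.univ : Finset (Edge n)) = ∅ := Finset.univ_eq_empty
      rw [this] at hn
      exact hn.1 hn.2
    obtain ⟨R', hR', hP'⟩ := large (d n) (U n) hn.2 (hU n) (K + 1) (Nat.succ_pos K) (p n) hp1 hLp hne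
    have h5 := hopt n R' hR'
    obtain ⟨D, hD, hG⟩ := hR n
    have ha1 := Pr_le_one hG (U n)
    have h6 : (1 / 2 : ℝ) ^ (K + 1) ≤ (1 / 2) ^ K := by
      apply pow_le_pow_of_le_one <;> norm_num
    rw [Real.dist_eq, abs_lt]
    constructor <;> linarith

end Pool.Agent.Results.MP_c7de0c_pr.LowerThreshold
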